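import Pool.Agent.H87.Oka.Conc

/-! Simplicity of the nonzero roots of the Okamoto hierarchies for `3 N ≤ 2 m`. -/

open Polynomial Matrix Pool.Agent.H87.Oka

namespace Pool.Agent.Results.MP_1774d7_an.SimpleRoots

/-- `p_j^{[m]}`, the coefficient of `ε^j` in `exp (ε^m + z ε)`, written out: the sum over `k` with
`m k ≤ j` of `z^(j - m k) / (k! (j - m k)!)`; it is zero for negative `j`. -/
noncomputable def p (m : ℕ) (j : ℤ) : ℂ[X] :=
  if 0 ≤ j then
    ∑ k ∈ Finset.range (j.toNat + 1), if m * k ≤ j.toNat then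
      C (1 / ((k.factorial : ℂ) * ((j.toNat - m * k).factorial : ℂ))) * X ^ (j.toNat - m * k)
    else 0
  else 0

/-- The polynomial `Q_N^{[m]}`. -/
noncomputable def Q (N m : ℕ) : ℂ[X] :=
  C (((3 : ℂ) ^ (N * (N - 1) / 2))⁻¹ *
      ∏ k ∈ Finset.Icc 1 N, ((3 * k - 1).factorial : ℂ) / ((k - 1).factorial : ℂ)) *
    (Matrix.of fun i j : Fin N => p m (3 * ((i : ℤ) + 1) - ((j : ℤ) + 1))).det

/-- The polynomial `R_N^{[m]}`. -/
noncomputable def R (N m : ℕ) : ℂ[X] :=
  C (((3 : ℂ) ^ (N * (N - 1) / 2))⁻¹ *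
      ∏ k ∈ Finset.Icc 1 N, ((3 * k - 2).factorial : ℂ) / ((k - 1).factorial : ℂ)) *
    (Matrix.of fun i j : Fin N => p m (3 * ((i : ℤ) + 1) - 1 - ((j : ℤ) + 1))).det

theorem p_nat {m e : ℕ} : p m (e : ℤ) = ∑ k ∈ Finset.range (e + 1), if m * k ≤ e then
      C (1 / ((k.factorial : ℂ) * ((e - m * k).factorial : ℂ))) * X ^ (e - m * k) else 0 := by
  simp [p]

theorem p_small {m e : ℕ} (h : e < m) : p m (e : ℤ) = C (1 / (e.factorial : ℂ)) * X ^ e := by
  rw [p_nat, Finset.sum_eq_single 0]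
  · simp
  · intro k _ hk
    rw [if_neg]
    have : 1 ≤ k := Nat.one_le_iff_ne_zero.2 hk
    nlinarith
  · intro h; simp at h

theorem p_mid {m e : ℕ} (h : m ≤ e) (h2 : e < 2 * m) :
    p m (e : ℤ) = C (1 / (e.factorial : ℂ)) * X ^ e +
      C (1 / ((e - m).factorial : ℂ)) * X ^ (e - m) := by
  rw [p_nat, ← Finset.sum_subset (s₁ := {0, 1})]
  · rw [Finset.sum_pair (by norm_num)]
    simp [h]
  · intro k hk
    simp only [Finset.mem_insert, Finset.mem_singleton] at hk
    simp only [Finset.mem_range]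
    omega
  · intro k _ hk
    simp only [Finset.mem_insert, Finset.mem_singleton, not_or] at hk
    rw [if_neg]
    have : 2 ≤ k := by omega
    nlinarith

theorem desc_eq {n j : ℕ} (h : j ≤ n) :
    (n.descFactorial j : ℂ) / (n.factorial : ℂ) = 1 / ((n - j).factorial : ℂ) := by
  have := Nat.factorial_mul_descFactorial h
  have h1 : ((n - j).factorial : ℂ) * (n.descFactorial j : ℂ) = (n.factorial : ℂ) := by
    exact_mod_cast this
  rw [← h1]
  have h2 : ((n - j).factorial : ℂ) ≠ 0 := by exact_mod_cast (n-j).factorial_ne_zero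
  have h3 : (n.descFactorial j : ℂ) ≠ 0 := by
    intro h0
    rw [h0, mul_zero] at h1
    exact (by exact_mod_cast n.factorial_ne_zero : (n.factorial : ℂ) ≠ 0) h1.symm
  field_simp

theorem entry {m b j : ℕ} (hb : b < 2 * m) {z : ℂ} (hz : z ≠ 0) :
    (p m ((b : ℤ) - (j : ℤ))).eval z = (1 / (b.factorial : ℂ) * z ^ b) *
      ((z⁻¹) ^ j * ((b.descFactorial j : ℂ) + z⁻¹ ^ m *
        ((b.descFactorial m : ℂ) * ((b - m).descFactorial j : ℂ)))) := by
  by_cases hj : j ≤ b
  · have he : ((b : ℤ) - (j : ℤ)) = ((b - j : ℕ) : ℤ) := by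
      push_cast [Nat.cast_sub hj]; ring
    rw [he]
    have hz1 : z ^ (b - j) = z ^ b * (z⁻¹) ^ j := by
      rw [pow_sub₀ _ hz hj, inv_pow]
    have hd := desc_eq hj
    have hbf : (b.factorial : ℂ) ≠ 0 := by exact_mod_cast b.factorial_ne_zero
    by_cases hmj : m ≤ b - j
    · rw [p_mid hmj (by omega)]
      simp only [eval_add, eval_mul, eval_C, eval_pow, eval_X]
      have hz2 : z ^ (b - j - m) = z ^ b * (z⁻¹) ^ j * z⁻¹ ^ m := by
        rw [pow_sub₀ _ hz hmj, hz1, inv_pow z m]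
      have hd2 : (b.descFactorial m : ℂ) / (b.factorial : ℂ) = 1 / ((b - m).factorial : ℂ) :=
        desc_eq (by omega)
      have hd3 : ((b - m).descFactorial j : ℂ) / ((b - m).factorial : ℂ) =
          1 / ((b - m - j).factorial : ℂ) := desc_eq (by omega)
      have e3 : b - j - m = b - m - j := by omega
      rw [hz2, hz1, ← hd, e3, ← hd3]
      have e4 : ((b - m).descFactorial j : ℂ) / ((b - m).factorial : ℂ) =
          ((b - m).descFactorial j : ℂ) * ((b.descFactorial m : ℂ) / (b.factorial : ℂ)) := by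
        rw [hd2]; ring
      rw [e4]
      ring
    · rw [p_small (by omega)]
      simp only [eval_mul, eval_C, eval_pow, eval_X]
      have h0 : ((b.descFactorial m : ℂ) * ((b - m).descFactorial j : ℂ)) = 0 := by
        by_cases hbm : b < m
        · rw [Nat.descFactorial_of_lt hbm]; simp
        · rw [Nat.descFactorial_of_lt (by omega : b - m < j)]; simp
      rw [h0, hz1, ← hd]
      ring
  · have hneg : ¬ (0 ≤ ((b : ℤ) - (j : ℤ))) := by omega
    have hp0 : p m ((b : ℤ) - (j : ℤ)) = 0 := by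
      unfold p; rw [if_neg hneg]
    rw [hp0, Nat.descFactorial_of_lt (by omega : b < j),
      Nat.descFactorial_of_lt (by omega : b - m < j)]
    simp

/-- complexification -/
noncomputable abbrev cx {N : ℕ} (M : Matrix (Fin N) (Fin N) ℝ) : Matrix (Fin N) (Fin N) ℂ :=
  M.map (algebraMap ℝ ℂ)

theorem cx_E (N c : ℕ) (i j : Fin N) :
    cx (E N c) i j = ((3 * (i : ℕ) + c).descFactorial (j : ℕ) : ℂ) := by
  simp only [cx, E, Matrix.map_apply, Matrix.of_apply]
  rw [descPochhammer_eval_eq_descFactorial]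
  simp

theorem cx_F (N c m : ℕ) (i j : Fin N) :
    cx (F N c m) i j = ((3 * (i : ℕ) + c).descFactorial m : ℂ) *
      ((3 * (i : ℕ) + c - m).descFactorial (j : ℕ) : ℂ) := by
  simp only [cx, F, Matrix.map_apply, Matrix.of_apply]
  rw [descPochhammer_eval_eq_descFactorial]
  simp

theorem cx_det (N c : ℕ) : (cx (E N c)).det ≠ 0 := by
  have h := E_det N c
  have : (cx (E N c)).det = algebraMap ℝ ℂ (E N c).det := by
    rw [RingHom.map_det]; rfl
  rw [this]
  simpa using h

theorem key (N c m : ℕ) (h2m : 3 * N + c < 2 * m + 3) (z : ℂ) (hz : z ≠ 0) :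
    z ^ (∑ j : Fin N, (j : ℕ)) * z ^ (m * N) *
      ((Matrix.of fun i j : Fin N => p m ((3 * (i : ℤ) + c) - (j : ℤ))).det).eval z =
    ((∏ i : Fin N, (1 / ((3 * (i : ℕ) + c).factorial : ℂ))) * (cx (E N c)).det) *
      z ^ (∑ i : Fin N, (3 * (i : ℕ) + c)) * (cx (CC N c m)).charpoly.eval (z ^ m) := by
  have hdet : ((Matrix.of fun i j : Fin N => p m ((3 * (i : ℤ) + c) - (j : ℤ))).det).eval z =
      (∏ i : Fin N, (1 / ((3 * (i : ℕ) + c).factorial : ℂ) * z ^ (3 * (i : ℕ) + c))) *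
        ((∏ j : Fin N, (z⁻¹) ^ (j : ℕ)) * (cx (E N c) + z⁻¹ ^ m • cx (F N c m)).det) := by
    rw [← Polynomial.coe_evalRingHom, RingHom.map_det]
    have : (evalRingHom z).mapMatrix (Matrix.of fun i j : Fin N =>
        p m ((3 * (i : ℤ) + c) - (j : ℤ))) =
        Matrix.of fun i j : Fin N => (1 / ((3 * (i : ℕ) + c).factorial : ℂ) *
          z ^ (3 * (i : ℕ) + c)) *
          (Matrix.of fun i j : Fin N => ((z⁻¹) ^ (j : ℕ)) *
          (cx (E N c) + z⁻¹ ^ m • cx (F N c m)) i j) i j := by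
      ext i j
      simp only [RingHom.mapMatrix_apply, Matrix.map_apply, Matrix.of_apply, coe_evalRingHom]
      have e1 : (3 * ((i : ℕ) : ℤ) + (c : ℤ)) - ((j : ℕ) : ℤ) =
          ((3 * (i : ℕ) + c : ℕ) : ℤ) - ((j : ℕ) : ℤ) := by push_cast; ring
      have hi := i.2
      rw [e1, entry (by omega) hz, Matrix.add_apply, Matrix.smul_apply, cx_E, cx_F, smul_eq_mul]
    rw [this, Matrix.det_mul_column, Matrix.det_mul_row]
  have hM : (z ^ (m * N)) * (cx (E N c) + z⁻¹ ^ m • cx (F N c m)).det =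
      (cx (E N c)).det * (cx (CC N c m)).charpoly.eval (z ^ m) := by
    rw [Matrix.eval_charpoly, ← Matrix.det_mul]
    have h1 : cx (E N c) * cx (CC N c m) = -cx (F N c m) := by
      have := congrArg (fun M : Matrix (Fin N) (Fin N) ℝ => cx M) (E_mul_CC N c m)
      simp only [cx, Matrix.map_mul] at this
      rw [this]
      ext i j
      simp
    have h2 : cx (E N c) * (Matrix.scalar (Fin N) (z ^ m) - cx (CC N c m)) =
        (z ^ m) • (cx (E N c) + z⁻¹ ^ m • cx (F N c m)) := by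
      rw [Matrix.mul_sub, h1, sub_neg_eq_add, smul_add, smul_smul, ← mul_pow,
        mul_inv_cancel₀ hz, one_pow, one_smul]
      congr 1
      ext i j
      simp [Matrix.scalar_apply, mul_comm]
    rw [h2, Matrix.det_smul, Fintype.card_fin, pow_mul]
  rw [hdet, Finset.prod_mul_distrib, Finset.prod_pow_eq_pow_sum, Finset.prod_pow_eq_pow_sum,
    inv_pow z (∑ j : Fin N, (j : ℕ))]
  have h1 : z ^ (∑ j : Fin N, (j : ℕ)) ≠ 0 := pow_ne_zero _ hz
  calc _ = (z ^ (∑ j : Fin N, (j : ℕ)) * (z ^ (∑ j : Fin N, (j : ℕ)))⁻¹) *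
        ((∏ i : Fin N, (1 / ((3 * (i : ℕ) + c).factorial : ℂ))) *
          z ^ (∑ i : Fin N, (3 * (i : ℕ) + c))) *
        ((z ^ (m * N)) * (cx (E N c) + z⁻¹ ^ m • cx (F N c m)).det) := by ring
    _ = _ := by rw [mul_inv_cancel₀ h1, hM]; ring

/-- when `3` divides `m` there are no nonzero eigenvalues -/
theorem no_eig {N c m : ℕ} (h2m : 3 * N + c < 2 * m + 3) (hc : c ≤ 2) (hm : 3 ∣ m)
    {x : ℂ} (hx : x ≠ 0) (hr : (cx (CC N c m)).charpoly.IsRoot x) : False := by
  obtain ⟨v, hv0, hv⟩ : ∃ v : Fin N → ℂ, v ≠ 0 ∧ (cx (CC N c m)).mulVec v = x • v := by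
    have h1 : (Matrix.scalar (Fin N) x - cx (CC N c m)).det = 0 := by
      rw [← Matrix.eval_charpoly]; exact hr
    obtain ⟨v, hv0, hv⟩ := Matrix.exists_mulVec_eq_zero_iff.2 h1
    refine ⟨v, hv0, ?_⟩
    rw [Matrix.sub_mulVec, sub_eq_zero] at hv
    rw [← hv]
    simp [Matrix.scalar_apply]
  have hC : ∀ ζ, (CC N c m).mulVec (rp v ζ) = rp v (ζ * x) := by
    intro ζ
    rw [rp_mulVec v _ hv, rp_smul]
  -- values at low points vanish
  have hlow : ∀ (u : Fin N → ℝ) (i : Fin N), 3 * (i : ℕ) + c < m →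
      (pol ((CC N c m).mulVec u)).eval ((3 * (i : ℕ) + c : ℕ) : ℝ) = 0 := by
    intro u i hi
    rw [pol_CC, Nat.descFactorial_of_lt hi]
    simp
  have hsq : ∀ u : Fin N → ℝ, (CC N c m).mulVec ((CC N c m).mulVec u) = 0 := by
    intro u
    apply eq_zero_of_pol (c := c)
    intro i
    by_cases hi : 3 * (i : ℕ) + c < m
    · exact hlow _ i hi
    · rw [pol_CC]
      obtain ⟨q, rfl⟩ := hm
      have hiN := i.2
      have h1 := hlow u ⟨(i : ℕ) - q, by omega⟩ (by show 3 * ((i : ℕ) - q) + c < 3 * q; omega)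
      have e : (3 * (i : ℕ) + c - 3 * q) = 3 * ((i : ℕ) - q) + c := by omega
      rw [e]
      simp only at h1
      rw [h1]
      simp
  have hz : ∀ ζ, rp v (ζ * x) = 0 := by
    intro ζ
    have h1 := hsq (rp v (ζ / x))
    rw [hC, div_mul_cancel₀ _ hx, hC] at h1
    exact h1
  apply hv0
  ext i
  have h1 := congrFun (hz (1 / x)) i
  have h2 := congrFun (hz (-Complex.I / x)) i
  rw [div_mul_cancel₀ _ hx] at h1 h2
  simp only [rp, one_mul, Pi.zero_apply] at h1
  simp [rp] at h2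
  exact Complex.ext (by simpa using h1) (by simpa using h2)

theorem simple_of (N c m : ℕ) (hm : 1 ≤ m) (hc : c ≤ 2) (h2m : 3 * N + c < 2 * m + 3)
    {z : ℂ} (hz : z ≠ 0)
    (hr : ((Matrix.of fun i j : Fin N => p m ((3 * (i : ℤ) + c) - (j : ℤ))).det).IsRoot z) :
    ((Matrix.of fun i j : Fin N => p m ((3 * (i : ℤ) + c) - (j : ℤ))).det).rootMultiplicity z = 1
      := by
  set D := (Matrix.of fun i j : Fin N => p m ((3 * (i : ℤ) + c) - (j : ℤ))).det with hD
  set κ := ((∏ i : Fin N, (1 / ((3 * (i : ℕ) + c).factorial : ℂ))) * (cx (E N c)).det) with hκ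
  have hκ0 : κ ≠ 0 := by
    apply mul_ne_zero _ (cx_det N c)
    exact Finset.prod_ne_zero_iff.2 fun i _ =>
      one_div_ne_zero (by exact_mod_cast Nat.factorial_ne_zero _)
  set H := (cx (CC N c m)).charpoly with hH
  set s := ∑ j : Fin N, (j : ℕ)
  set t := ∑ i : Fin N, (3 * (i : ℕ) + c)
  have hpoly : X ^ s * X ^ (m * N) * D = C κ * X ^ t * H.comp (X ^ m) := by
    apply Polynomial.eq_of_infinite_eval_eq
    apply Set.Infinite.mono (s := {z : ℂ | z ≠ 0})
    · intro w hw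
      have := key N c m h2m w hw
      simp only [Set.mem_ofPred_eq, eval_mul, eval_pow, eval_X, eval_C, eval_comp]
      exact this
    · exact (Set.finite_singleton (0 : ℂ)).infinite_compl
  have hxm : z ^ m ≠ 0 := pow_ne_zero _ hz
  have hHroot : H.IsRoot (z ^ m) := by
    have h := key N c m h2m z hz
    rw [← hD, hr.eq_zero, mul_zero] at h
    rcases mul_eq_zero.1 h.symm with h | h
    · rcases mul_eq_zero.1 h with h | h
      · exact absurd h hκ0
      · exact absurd h (pow_ne_zero _ hz)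
    · exact h
  have hH0 : H ≠ 0 := (Matrix.charpoly_monic _).ne_zero
  have h3 : ¬ 3 ∣ m := fun h3 => no_eig h2m hc h3 hxm hHroot
  have hsimple : H.rootMultiplicity (z ^ m) ≤ 1 := by
    have hL : ∀ i, i < (m - c + 2) / 3 ↔ 3 * i + c < m := by
      intro i; omega
    exact ((osc (L := (m - c + 2) / 3) h3 hc hL h2m).simple hxm hHroot).2
  have hder : ¬ (derivative H).IsRoot (z ^ m) := by
    intro h
    have := (one_lt_rootMultiplicity_iff_isRoot hH0).2 ⟨hHroot, h⟩
    omega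
  have hD0 : D ≠ 0 := by
    intro h0
    rw [h0, mul_zero] at hpoly
    rcases mul_eq_zero.1 hpoly.symm with h | h
    · rcases mul_eq_zero.1 h with h | h
      · exact hκ0 (C_eq_zero.1 h)
      · exact absurd h (pow_ne_zero _ X_ne_zero)
    · have hev : ∀ w : ℂ, H.eval (w ^ m) = 0 := by
        intro w
        have := congrArg (eval w) h
        simpa using this
      apply hH0
      apply Polynomial.funext
      intro w
      rw [eval_zero]
      obtain ⟨u, hu⟩ := IsAlgClosed.exists_pow_nat_eq w (by omega : 0 < m)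
      rw [← hu]
      exact hev u
  have hderD : ¬ (derivative D).IsRoot z := by
    intro hd
    have h1 := congrArg (fun q => eval z (derivative q)) hpoly
    have hHz : eval (z ^ m) H = 0 := hHroot
    simp only [derivative_mul, derivative_C, derivative_X_pow, derivative_comp, eval_add, eval_mul,
      eval_pow, eval_X, eval_C, hr.eq_zero, hd.eq_zero, mul_zero, add_zero, zero_mul, eval_comp,
      hHz, zero_add] at h1
    have h2 : (m : ℂ) ≠ 0 := by exact_mod_cast (by omega : m ≠ 0)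
    have h4 : eval (z ^ m) (derivative H) ≠ 0 := hder
    have h5 : κ * z ^ t * ((m : ℂ) * z ^ (m - 1) * eval (z ^ m) (derivative H)) ≠ 0 :=
      mul_ne_zero (mul_ne_zero hκ0 (pow_ne_zero _ hz))
        (mul_ne_zero (mul_ne_zero h2 (pow_ne_zero _ hz)) h4)
    exact h5 h1.symm
  have h1 : 1 ≤ D.rootMultiplicity z := (rootMultiplicity_pos hD0).2 hr
  have h2 : ¬ 1 < D.rootMultiplicity z := fun h =>
    hderD ((one_lt_rootMultiplicity_iff_isRoot hD0).1 h).2
  omega

theorem fac_ne (N c : ℕ) : (((3 : ℂ) ^ (N * (N - 1) / 2))⁻¹ *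
      ∏ k ∈ Finset.Icc 1 N, ((3 * k - c).factorial : ℂ) / ((k - 1).factorial : ℂ)) ≠ 0 := by
  have hfac : ∀ k : ℕ, (k.factorial : ℂ) ≠ 0 := fun k => by exact_mod_cast k.factorial_ne_zero
  exact mul_ne_zero (inv_ne_zero (pow_ne_zero _ (by norm_num)))
    (Finset.prod_ne_zero_iff.2 fun k _ => div_ne_zero (hfac _) (hfac _))

theorem scale {κ : ℂ} (hκ : κ ≠ 0) {D : ℂ[X]} {z : ℂ}
    (h : D.IsRoot z → D.rootMultiplicity z = 1) (hr : (C κ * D).IsRoot z) :
    (C κ * D).rootMultiplicity z = 1 := by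
  have hr' : D.IsRoot z := by
    have := hr.eq_zero
    rw [eval_mul, eval_C] at this
    exact (mul_eq_zero.1 this).resolve_left hκ
  have h1 := h hr'
  have h0 : D ≠ 0 := by
    intro h0
    rw [h0] at h1
    simp at h1
  rw [rootMultiplicity_mul (mul_ne_zero (C_ne_zero.2 hκ) h0), rootMultiplicity_C, zero_add]
  exact h1

/-- For `m ≥ 2`: if `3 N ≤ 2 m` then every nonzero root of `Q_N^{[m]}` is simple, and if
`3 N ≤ 2 m + 1` then every nonzero root of `R_N^{[m]}` is simple. -/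
theorem result (N m : ℕ) (_hN : 1 ≤ N) (hm : 2 ≤ m) :
    (3 * N ≤ 2 * m → ∀ z : ℂ, z ≠ 0 → (Q N m).IsRoot z → (Q N m).rootMultiplicity z = 1) ∧
    (3 * N ≤ 2 * m + 1 → ∀ z : ℂ, z ≠ 0 → (R N m).IsRoot z → (R N m).rootMultiplicity z = 1) := by
  constructor
  · intro h z hz hr
    have hidx : (Matrix.of fun i j : Fin N => p m (3 * ((i : ℤ) + 1) - ((j : ℤ) + 1))) =
        (Matrix.of fun i j : Fin N => p m ((3 * (i : ℤ) + (2 : ℕ)) - (j : ℤ))) := by
      ext1 i j
      simp only [Matrix.of_apply]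
      congr 1
      push_cast
      ring
    unfold Q at hr ⊢
    rw [hidx] at hr ⊢
    exact scale (fac_ne N 1) (fun hr' => simple_of N 2 m (by omega) (by omega) (by omega) hz hr') hr
  · intro h z hz hr
    have hidx : (Matrix.of fun i j : Fin N => p m (3 * ((i : ℤ) + 1) - 1 - ((j : ℤ) + 1))) =
        (Matrix.of fun i j : Fin N => p m ((3 * (i : ℤ) + (1 : ℕ)) - (j : ℤ))) := by
      ext1 i j
      simp only [Matrix.of_apply]
      congr 1
      push_cast
      ring
    unfold R at hr ⊢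
    rw [hidx] at hr ⊢
    exact scale (fac_ne N 2) (fun hr' => simple_of N 1 m (by omega) (by omega) (by omega) hz hr') hr

end Pool.Agent.Results.MP_1774d7_an.SimpleRoots
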